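import Pool.Agent.Q191.Cn.Count

/-!
# Bounds for the essential self-adjointness threshold `c_n`

`D_{2n}(z; c) = ∏_{j=1}^{2n} (z - (j - 1)) + (-1)ⁿ c`.  The operator `(-1)ⁿ d^{2n}/dx^{2n} + c/x^{2n}`
on `C_0^∞((0, ∞))` is essentially self-adjoint if and only if exactly `n` of the `2n` roots of
`D_{2n}(·; c)`, counted with multiplicity, have real part larger than `-1/2`; the set of these `c`
is `[c_n, ∞)`.  We prove `2 n² / π < c_n^(1/(2n)) < n / sin (π / (2n))` for all `n ≥ 1`.

Idea of the proof.  For `n ≥ 2` let `y > 0` be the solution of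
`∑_{m < 2n} arctan ((m + 1/2) / y) = π`; then `c_n = ∏_{m < 2n} |y + i (m + 1/2)|` (phases of
`D_{2n}` on horizontal lines, and continuity along the curve where the phase equals that of the
boundary root).  Upper bound: for fixed number `N = 2n` of points the quantity
`(geometric mean of |y + i x_m|) · sin (mean angle)` is strictly increasing in `y` (by a tangent
inequality for the sine) and tends to the mean of the `x_m`.  Lower bound: midpoint sums are compared
with integrals, and the inequality for the integrals follows from `sin³ θ ≥ θ³ cos θ`; for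
`n ≤ 5` the bound is checked with rational arithmetic.
-/

set_option autoImplicit false

namespace Pool.Agent.Results.MP_74ce82_an.BothBounds

open Polynomial

/-- `D_{2n}(z; c) = z (z - 1) ⋯ (z - (2n - 1)) + (-1)ⁿ c` as a polynomial in `z`. -/
noncomputable def D (n : ℕ) (c : ℝ) : ℂ[X] :=
  ∏ j ∈ Finset.range (2 * n), (X - C (j : ℂ)) + C ((-1) ^ n * (c : ℂ))

/-- The set of all real `c` such that exactly `n` of the `2n` roots of `D_{2n}(·; c)`, counted with
multiplicity, have real part larger than `-1/2`. -/
def Good (n : ℕ) : Set ℝ :=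
  {c : ℝ | Multiset.card ((D n c).roots.filter (fun z => -1 / 2 < z.re)) = n}

/-- For every `n ≥ 1` the set `Good n` is an interval `[c_n, ∞)` with `c_n > 0`, and
`2 n² / π < c_n^(1/(2n)) < n / sin (π / (2n))`. -/
theorem result (n : ℕ) (hn : 1 ≤ n) : ∃ cn : ℝ, Good n = Set.Ici cn ∧ 0 < cn ∧
    2 * (n : ℝ) ^ 2 / Real.pi < cn ^ (1 / (2 * (n : ℝ))) ∧
    cn ^ (1 / (2 * (n : ℝ))) < n / Real.sin (Real.pi / (2 * n)) :=
  Q191.Cn.main hn

end Pool.Agent.Results.MP_74ce82_an.BothBounds
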